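import Pool.Agent.K7.H60.TL.RB
import Pool.Agent.K7.H60.SQ.PN

/-! Long prime-free runs soon after `α 2^n` for all large `n`, for almost all `α`. -/

set_option autoImplicit false

namespace Pool.Agent.K7.H60.MT

open Finset Filter Topology MeasureTheory Pool.Agent.K7.H60.TL

/-- a run of composite numbers of length `≥ ℓ` in `(x, x + w]` -/
def Run (x w ℓ : ℝ) : Prop := ∃ a b : ℕ, x < a ∧ (b : ℝ) ≤ x + w ∧ ℓ ≤ (b : ℝ) - a ∧
  ∀ m ∈ Icc a b, ¬ m.Prime

/-- Borel-Cantelli for sets of integers -/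
theorem bc (P : ℕ → Prop) (X₀ : ℕ) (h : ∀ X : ℕ, X₀ ≤ X →
    (((Set.ncard {x : ℕ | x < X ∧ ¬ P x} : ℕ)) : ℝ) ≤ X / (Real.log X) ^ 2) (B : ℕ) (hB : 1 ≤ B) :
    ∀ᵐ α : ℝ, 0 < α → α < B → ∀ᶠ n : ℕ in atTop, P ⌊α * 2 ^ n⌋₊ := by
  have hlog2 : 0 < Real.log 2 := Real.log_pos (by norm_num)
  set s : ℕ → Set ℝ := fun n => {α : ℝ | 0 < α ∧ α < B ∧ ¬ P ⌊α * 2 ^ n⌋₊} with hs
  have hmeas : ∀ᶠ n : ℕ in atTop, volume (s n) ≤ ENNReal.ofReal (B / (Real.log 2) ^ 2 * (1 / (n : ℝ) ^ 2)) := by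
    filter_upwards [eventually_ge_atTop X₀, eventually_ge_atTop 1] with n hn hn1
    have h2n : (0 : ℝ) < 2 ^ n := by positivity
    have hBn : X₀ ≤ B * 2 ^ n := by
      calc X₀ ≤ n := hn
        _ ≤ 2 ^ n := Nat.lt_two_pow_self.le
        _ = 1 * 2 ^ n := (one_mul _).symm
        _ ≤ _ := Nat.mul_le_mul_right _ hB
    have h1 := h (B * 2 ^ n) hBn
    have hfin : {x : ℕ | x < B * 2 ^ n ∧ ¬ P x}.Finite :=
      (Set.finite_Iio (B * 2 ^ n)).subset fun x hx => hx.1
    set F := hfin.toFinset with hF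
    have hcard : F.card = Set.ncard {x : ℕ | x < B * 2 ^ n ∧ ¬ P x} := by
      rw [Set.ncard_eq_toFinset_card _ hfin]
    have hsub : s n ⊆ ⋃ x ∈ F, Set.Ico ((x : ℝ) / 2 ^ n) (((x : ℝ) + 1) / 2 ^ n) := by
      rintro α ⟨h2, h3, h4⟩
      have h5 : (⌊α * 2 ^ n⌋₊ : ℝ) ≤ α * 2 ^ n := Nat.floor_le (by positivity)
      have h6 : α * 2 ^ n < ⌊α * 2 ^ n⌋₊ + 1 := Nat.lt_floor_add_one _
      simp only [Set.mem_iUnion]
      refine ⟨⌊α * 2 ^ n⌋₊, ?_, ?_, ?_⟩
      · rw [hF, Set.Finite.mem_toFinset]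
        refine ⟨?_, h4⟩
        have h7 : α * 2 ^ n < B * 2 ^ n := mul_lt_mul_of_pos_right h3 h2n
        have : ((⌊α * 2 ^ n⌋₊ : ℕ) : ℝ) < ((B * 2 ^ n : ℕ) : ℝ) := by push_cast; linarith
        exact_mod_cast this
      · rw [div_le_iff₀ h2n]; exact h5
      · rw [lt_div_iff₀ h2n]; exact h6
    calc volume (s n) ≤ volume (⋃ x ∈ F, Set.Ico ((x : ℝ) / 2 ^ n) (((x : ℝ) + 1) / 2 ^ n)) :=
          measure_mono hsub
      _ ≤ ∑ x ∈ F, volume (Set.Ico ((x : ℝ) / 2 ^ n) (((x : ℝ) + 1) / 2 ^ n)) :=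
          measure_biUnion_finset_le _ _
      _ = ∑ x ∈ F, ENNReal.ofReal (1 / 2 ^ n) := by
          apply sum_congr rfl
          intro x _
          rw [Real.volume_Ico]
          congr 1
          field_simp
          ring
      _ = ENNReal.ofReal ((F.card : ℝ) / 2 ^ n) := by
          rw [sum_const, ← ENNReal.ofReal_nsmul, nsmul_eq_mul]
          congr 1
          ring
      _ ≤ _ := by
          apply ENNReal.ofReal_le_ofReal
          rw [hcard, div_le_iff₀ h2n]
          refine h1.trans ?_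
          push_cast
          have h8 : (n : ℝ) * Real.log 2 ≤ Real.log ((B : ℝ) * 2 ^ n) := by
            rw [← Real.log_pow]
            apply Real.log_le_log (by positivity)
            have : (1 : ℝ) ≤ B := by exact_mod_cast hB
            nlinarith
          have hn0 : (0 : ℝ) < n := by
            have : 0 < n := by omega
            exact_mod_cast this
          have h9 : ((n : ℝ) * Real.log 2) ^ 2 ≤ (Real.log ((B : ℝ) * 2 ^ n)) ^ 2 :=
            pow_le_pow_left₀ (by positivity) h8 2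
          calc (B : ℝ) * 2 ^ n / Real.log (B * 2 ^ n) ^ 2 ≤ (B : ℝ) * 2 ^ n / ((n : ℝ) * Real.log 2) ^ 2 :=
                div_le_div_of_nonneg_left (by positivity) (by positivity) h9
            _ = _ := by field_simp
  obtain ⟨n₀, hn₀⟩ := eventually_atTop.1 hmeas
  have hsum : Summable (fun n : ℕ => B / (Real.log 2) ^ 2 * (1 / (n : ℝ) ^ 2)) :=
    (Real.summable_one_div_nat_pow.2 (by norm_num)).mul_left _
  have htop : ∑' n, volume (s (n + n₀)) ≠ ⊤ := by
    have h1 : ∑' n, volume (s (n + n₀)) ≤ ∑' n : ℕ, ENNReal.ofReal (B / (Real.log 2) ^ 2 *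
        (1 / ((n + n₀ : ℕ) : ℝ) ^ 2)) := ENNReal.tsum_le_tsum fun n => hn₀ (n + n₀) (by omega)
    apply ne_top_of_le_ne_top _ h1
    have h2 := (summable_nat_add_iff n₀).2 hsum
    exact h2.tsum_ofReal_ne_top
  have hae := ae_eventually_notMem htop
  filter_upwards [hae] with α hα h0 hαB
  obtain ⟨N, hN⟩ := eventually_atTop.1 hα
  refine eventually_atTop.2 ⟨N + n₀, fun n hn => ?_⟩
  have h1 := hN (n - n₀) (by omega)
  rw [show n - n₀ + n₀ = n by omega] at h1
  by_contra hcon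
  exact h1 ⟨h0, hαB, hcon⟩

theorem runs_ae_one (θ : ℝ) (hθ : 0 < θ) (hθ1 : θ < 1) : ∃ c : ℝ, 0 < c ∧ ∀ᵐ α : ℝ, 0 < α →
    ∀ᶠ n : ℕ in atTop, Run (α * 2 ^ n) (Real.exp ((n : ℝ) ^ θ))
      (c * (Nat.nth Nat.Prime (n - 1) : ℝ)) := by
  classical
  obtain ⟨c, hc, X₀, hX₀⟩ := runs_very_short θ hθ hθ1 2
  set P : ℕ → Prop := fun x => ∃ n m : ℕ, x < n ∧
        (m : ℝ) ≤ x + Real.exp ((Real.log x) ^ θ) ∧
        c * Real.log x * Real.log (Real.log x) ≤ (m : ℝ) - n ∧
        ∀ k ∈ Icc n m, ¬ k.Prime with hP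
  have hbc := fun B : ℕ => bc P X₀ (by
    intro X hX
    refine le_trans (le_of_eq ?_) (hX₀ X hX)
    congr 1
    rw [← Set.ncard_coe_finset]
    congr 1
    ext x
    simp only [coe_filter, mem_range, Set.mem_ofPred_eq, hP]) (B + 1) (by omega)
  refine ⟨c / 32, by positivity, ?_⟩
  have hall := ae_all_iff.2 hbc
  filter_upwards [hall] with α hα hα0
  obtain ⟨B, hB⟩ := exists_nat_gt α
  have h1 := hα B hα0 (by push_cast; linarith)
  have hlog2 : 0 < Real.log 2 := Real.log_pos (by norm_num)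
  -- sizes
  have ht1 : Tendsto (fun n : ℕ => (n : ℝ) * (Real.log 2 - 1 / 2) + (Real.log α - Real.log 2))
      atTop atTop := by
    apply tendsto_atTop_add_const_right
    apply tendsto_natCast_atTop_atTop.atTop_mul_const
    have := Real.log_two_gt_d9
    linarith
  have ht2 : Tendsto (fun n : ℕ => (n : ℝ) * (1 - Real.log 2) - Real.log α)
      atTop atTop := by
    apply tendsto_atTop_add_const_right
    apply tendsto_natCast_atTop_atTop.atTop_mul_const
    have := Real.log_two_lt_d9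
    linarith
  have ht3 : Tendsto (fun n : ℕ => α * (2 : ℝ) ^ n) atTop atTop :=
    (tendsto_pow_atTop_atTop_of_one_lt (by norm_num)).const_mul_atTop hα0
  filter_upwards [h1, ht1.eventually_ge_atTop 0, ht2.eventually_ge_atTop 0,
    ht3.eventually_ge_atTop 2, SQ.nth_le, eventually_ge_atTop 16,
    (Real.tendsto_log_atTop.comp (tendsto_natCast_atTop_atTop (R := ℝ))).eventually_ge_atTop 2]
    with n h2 h3 h4 h5 h6 h7 h8
  obtain ⟨a, b, g1, g2, g3, g4⟩ := h2
  have hn : (16 : ℝ) ≤ n := by exact_mod_cast h7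
  simp only [Function.comp] at h8
  set x := ⌊α * 2 ^ n⌋₊ with hx
  have hx1 : (x : ℝ) ≤ α * 2 ^ n := Nat.floor_le (by positivity)
  have hx2 : α * 2 ^ n < x + 1 := Nat.lt_floor_add_one _
  have hx0 : (0 : ℝ) < x := by linarith
  have hlx1 : (n : ℝ) / 2 ≤ Real.log x := by
    have e1 : α * 2 ^ n / 2 ≤ x := by linarith
    have e2 : Real.log (α * 2 ^ n / 2) ≤ Real.log x := Real.log_le_log (by linarith) e1
    rw [Real.log_div (by positivity) (by norm_num), Real.log_mul hα0.ne' (by positivity),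
      Real.log_pow] at e2
    linarith
  have hlx2 : Real.log x ≤ n := by
    have e2 : Real.log x ≤ Real.log (α * 2 ^ n) := Real.log_le_log hx0 hx1
    rw [Real.log_mul hα0.ne' (by positivity), Real.log_pow] at e2
    linarith
  refine ⟨a, b, ?_, ?_, ?_, g4⟩
  · have : (x : ℝ) + 1 ≤ a := by exact_mod_cast g1
    linarith
  · refine g2.trans ?_
    have e1 : Real.exp ((Real.log x) ^ θ) ≤ Real.exp ((n : ℝ) ^ θ) :=
      Real.exp_le_exp.mpr (Real.rpow_le_rpow (by linarith) hlx2 hθ.le)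
    linarith
  · refine le_trans ?_ g3
    have e1 : Real.log n / 2 ≤ Real.log (Real.log x) := by
      have e2 : Real.log ((n : ℝ) / 2) ≤ Real.log (Real.log x) := Real.log_le_log (by positivity) hlx1
      rw [Real.log_div (by linarith) (by norm_num)] at e2
      have := Real.log_two_lt_d9
      linarith
    calc c / 32 * (Nat.nth Nat.Prime (n - 1) : ℝ) ≤ c / 32 * (4 * n * Real.log n) :=
          mul_le_mul_of_nonneg_left h6 (by positivity)
      _ ≤ c * (n / 2) * (Real.log n / 2) := by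
          have : 0 ≤ c * (n * Real.log n) := by positivity
          nlinarith
      _ ≤ c * Real.log x * Real.log (Real.log x) := by
          apply mul_le_mul _ e1 (by linarith) (by positivity)
          exact mul_le_mul_of_nonneg_left hlx1 hc.le

theorem runs_ae : ∀ᵐ α : ℝ, 0 < α → ∀ θ : ℝ, 0 < θ → ∃ c : ℝ, 0 < c ∧
    ∀ᶠ n : ℕ in atTop, Run (α * 2 ^ n) (Real.exp ((n : ℝ) ^ θ))
      (c * (Nat.nth Nat.Prime (n - 1) : ℝ)) := by
  have h := fun j : ℕ => runs_ae_one (1 / ((j : ℝ) + 2)) (by positivity) (by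
    rw [div_lt_one (by positivity)]
    have : (0 : ℝ) ≤ j := Nat.cast_nonneg _
    linarith)
  choose c hc h using h
  have hall := ae_all_iff.2 h
  filter_upwards [hall] with α hα hα0 θ hθ
  obtain ⟨j, hj⟩ := exists_nat_gt (1 / θ)
  refine ⟨c j, hc j, ?_⟩
  filter_upwards [hα j hα0, eventually_ge_atTop 1] with n h1 hn
  have hn1 : (1 : ℝ) ≤ n := by exact_mod_cast hn
  obtain ⟨a, b, g1, g2, g3, g4⟩ := h1
  refine ⟨a, b, g1, g2.trans ?_, g3, g4⟩
  have e1 : (1 / ((j : ℝ) + 2)) ≤ θ := by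
    rw [div_le_iff₀ (by positivity)]
    rw [div_lt_iff₀ hθ] at hj
    nlinarith
  have e2 : Real.exp ((n : ℝ) ^ (1 / ((j : ℝ) + 2))) ≤ Real.exp ((n : ℝ) ^ θ) :=
    Real.exp_le_exp.mpr (Real.rpow_le_rpow_of_exponent_le hn1 e1)
  linarith

theorem rankin_ae_one (K : ℕ) : ∀ᵐ α : ℝ, 0 < α →
    ∀ᶠ n : ℕ in atTop, Run (α * 2 ^ n) (Real.exp ((n : ℝ) / (Real.log n) ^ K))
      (K * (Nat.nth Nat.Prime (n - 1) : ℝ)) := by
  classical
  obtain ⟨c, hc, X₀, hX₀⟩ := runs_rankin (K + 1) 2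
  set P : ℕ → Prop := fun x => ∃ n m : ℕ, x < n ∧
        (m : ℝ) ≤ x + Real.exp (Real.log x / (Real.log (Real.log x)) ^ (K + 1)) ∧
        c * (Real.log x * (Real.log (Real.log x)) ^ 2 *
          Real.log (Real.log (Real.log (Real.log x))) /
            (Real.log (Real.log (Real.log x))) ^ 2) ≤ (m : ℝ) - n ∧
        ∀ k ∈ Icc n m, ¬ k.Prime with hP
  have hbc := fun B : ℕ => bc P X₀ (by
    intro X hX
    refine le_trans (le_of_eq ?_) (hX₀ X hX)
    congr 1
    rw [← Set.ncard_coe_finset]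
    congr 1
    ext x
    simp only [coe_filter, mem_range, Set.mem_ofPred_eq, hP]) (B + 1) (by omega)
  have hall := ae_all_iff.2 hbc
  filter_upwards [hall] with α hα hα0
  obtain ⟨B, hB⟩ := exists_nat_gt α
  have h1 := hα B hα0 (by push_cast; linarith)
  have hlog2 : 0 < Real.log 2 := Real.log_pos (by norm_num)
  -- sizes
  have ht1 : Tendsto (fun n : ℕ => (n : ℝ) * (Real.log 2 - 1 / 2) + (Real.log α - Real.log 2))
      atTop atTop := by
    apply tendsto_atTop_add_const_right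
    apply tendsto_natCast_atTop_atTop.atTop_mul_const
    have := Real.log_two_gt_d9
    linarith
  have ht2 : Tendsto (fun n : ℕ => (n : ℝ) * (1 - Real.log 2) - Real.log α)
      atTop atTop := by
    apply tendsto_atTop_add_const_right
    apply tendsto_natCast_atTop_atTop.atTop_mul_const
    have := Real.log_two_lt_d9
    linarith
  have ht3 : Tendsto (fun n : ℕ => α * (2 : ℝ) ^ n) atTop atTop :=
    (tendsto_pow_atTop_atTop_of_one_lt (by norm_num)).const_mul_atTop hα0
  have hlogn : Tendsto (fun n : ℕ => Real.log (n : ℝ)) atTop atTop :=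
    Real.tendsto_log_atTop.comp tendsto_natCast_atTop_atTop
  have hev1 : ∀ᶠ l : ℝ in atTop, 32 * K / c * (Real.log l) ^ 2 ≤ l := by
    have h := ev_log_rpow (Real.sqrt (32 * K / c)) (1 / 2) (by norm_num)
    filter_upwards [h, eventually_ge_atTop (1 : ℝ)] with l hl hl1
    have h0 : 0 ≤ Real.log l := Real.log_nonneg hl1
    have h2 : (Real.sqrt (32 * K / c) * Real.log l) ^ 2 ≤ (l ^ (1 / 2 : ℝ)) ^ 2 :=
      pow_le_pow_left₀ (by positivity) hl 2
    have h3 : (l ^ (1 / 2 : ℝ)) ^ 2 = l := by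
      rw [← Real.rpow_natCast, ← Real.rpow_mul (by linarith)]
      norm_num
    rw [mul_pow, Real.sq_sqrt (by positivity), h3] at h2
    exact h2
  filter_upwards [h1, ht1.eventually_ge_atTop 0, ht2.eventually_ge_atTop 0,
    ht3.eventually_ge_atTop 2, SQ.nth_le, eventually_ge_atTop 16,
    hlogn.eventually_ge_atTop (2 * Real.exp (Real.exp 1)), hlogn.eventually_ge_atTop (2 ^ (K + 1)),
    hlogn.eventually hev1]
    with n h2 h3 h4 h5 h6 h7 h8 h9 h10
  obtain ⟨a, b, g1, g2, g3, g4⟩ := h2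
  have hn : (16 : ℝ) ≤ n := by exact_mod_cast h7
  set l : ℝ := Real.log n with hl
  have hee : 1 ≤ Real.exp (Real.exp 1) := Real.one_le_exp (Real.exp_pos 1).le
  have hl2 : 2 ≤ l := by linarith
  set x := ⌊α * 2 ^ n⌋₊ with hx
  have hx1 : (x : ℝ) ≤ α * 2 ^ n := Nat.floor_le (by positivity)
  have hx2 : α * 2 ^ n < x + 1 := Nat.lt_floor_add_one _
  have hx0 : (0 : ℝ) < x := by linarith
  have hlx1 : (n : ℝ) / 2 ≤ Real.log x := by
    have e1 : α * 2 ^ n / 2 ≤ x := by linarith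
    have e2 : Real.log (α * 2 ^ n / 2) ≤ Real.log x := Real.log_le_log (by linarith) e1
    rw [Real.log_div (by positivity) (by norm_num), Real.log_mul hα0.ne' (by positivity),
      Real.log_pow] at e2
    linarith
  have hlx2 : Real.log x ≤ n := by
    have e2 : Real.log x ≤ Real.log (α * 2 ^ n) := Real.log_le_log hx0 hx1
    rw [Real.log_mul hα0.ne' (by positivity), Real.log_pow] at e2
    linarith
  set Lx : ℝ := Real.log x with hLx
  have hLx0 : 0 < Lx := by linarith
  have hll1 : l / 2 ≤ Real.log Lx := by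
    have e2 : Real.log ((n : ℝ) / 2) ≤ Real.log Lx := Real.log_le_log (by positivity) hlx1
    rw [Real.log_div (by linarith) (by norm_num)] at e2
    have := Real.log_two_lt_d9
    linarith
  have hll2 : Real.log Lx ≤ l := Real.log_le_log hLx0 hlx2
  set M : ℝ := Real.log Lx with hM
  have hM0 : 0 < M := by linarith
  have hMe : Real.exp (Real.exp 1) ≤ M := by linarith
  have h3x : Real.exp 1 ≤ Real.log M := by
    rw [Real.le_log_iff_exp_le hM0]
    exact hMe
  have h3x0 : 0 < Real.log M := lt_of_lt_of_le (Real.exp_pos 1) h3x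
  have h3x2 : Real.log M ≤ Real.log l := Real.log_le_log hM0 hll2
  have h4x : 1 ≤ Real.log (Real.log M) := by
    rw [Real.le_log_iff_exp_le h3x0]
    exact h3x
  refine ⟨a, b, ?_, ?_, ?_, g4⟩
  · have : (x : ℝ) + 1 ≤ a := by exact_mod_cast g1
    linarith
  · refine g2.trans ?_
    have e1 : Lx / M ^ (K + 1) ≤ n / l ^ K := by
      have e2 : l ^ K ≤ M ^ (K + 1) := by
        have e3 : (l / 2) ^ (K + 1) ≤ M ^ (K + 1) := pow_le_pow_left₀ (by linarith) hll1 _
        have e4 : l ^ K ≤ (l / 2) ^ (K + 1) := by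
          rw [div_pow, le_div_iff₀ (by positivity), pow_succ l K]
          exact mul_le_mul_of_nonneg_left h9 (by positivity)
        linarith
      exact div_le_div₀ (by linarith) hlx2 (by positivity) e2
    have := Real.exp_le_exp.mpr e1
    linarith
  · refine le_trans ?_ g3
    have e1 : 32 * K / c * (Real.log M) ^ 2 ≤ l := by
      refine le_trans ?_ h10
      apply mul_le_mul_of_nonneg_left _ (by positivity)
      exact pow_le_pow_left₀ h3x0.le h3x2 2
    have e2 : 32 * K * (Real.log M) ^ 2 ≤ c * l := by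
      have := mul_le_mul_of_nonneg_left e1 hc.le
      have e : c * (32 * K / c * (Real.log M) ^ 2) = 32 * K * (Real.log M) ^ 2 := by field_simp
      linarith
    have hmul : Lx * M ^ 2 * 1 ≤ Lx * M ^ 2 * Real.log (Real.log M) :=
      mul_le_mul_of_nonneg_left h4x (by positivity)
    have e3 : c * (Lx * M ^ 2 / (Real.log M) ^ 2) ≤
        c * (Lx * M ^ 2 * Real.log (Real.log M) / (Real.log M) ^ 2) := by
      apply mul_le_mul_of_nonneg_left _ hc.le
      apply div_le_div_of_nonneg_right _ (by positivity)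
      linarith
    refine le_trans ?_ e3
    rw [← mul_div_assoc, le_div_iff₀ (by positivity)]
    have e4 : (n : ℝ) / 2 * (l / 2) ^ 2 ≤ Lx * M ^ 2 := by
      apply mul_le_mul hlx1 _ (by positivity) hLx0.le
      exact pow_le_pow_left₀ (by linarith) hll1 2
    calc (K : ℝ) * (Nat.nth Nat.Prime (n - 1) : ℝ) * (Real.log M) ^ 2 ≤
          K * (4 * n * l) * (Real.log M) ^ 2 := by
          apply mul_le_mul_of_nonneg_right _ (by positivity)
          exact mul_le_mul_of_nonneg_left h6 (by positivity)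
      _ = n * l / 8 * (32 * K * (Real.log M) ^ 2) := by ring
      _ ≤ n * l / 8 * (c * l) := mul_le_mul_of_nonneg_left e2 (by positivity)
      _ = c * ((n : ℝ) / 2 * (l / 2) ^ 2) := by ring
      _ ≤ _ := mul_le_mul_of_nonneg_left e4 hc.le

theorem rankin_ae : ∀ᵐ α : ℝ, 0 < α → ∀ K : ℕ,
    ∀ᶠ n : ℕ in atTop, Run (α * 2 ^ n) (Real.exp ((n : ℝ) / (Real.log n) ^ K))
      (K * (Nat.nth Nat.Prime (n - 1) : ℝ)) := by
  have hall := ae_all_iff.2 rankin_ae_one
  filter_upwards [hall] with α hα hα0 K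
  exact hα K hα0

end Pool.Agent.K7.H60.MT
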