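import Mathlib

/-! Positive upper density almost everywhere from uniform local lower bounds for measures. -/

set_option autoImplicit false

namespace Pool.Agent.K7.H60.MT

open Finset Filter MeasureTheory Topology

open scoped Classical in
/-- the number of the `n < N` with `α ∈ E n` -/
noncomputable def cnt (E : ℕ → Set ℝ) (N : ℕ) (α : ℝ) : ℕ := ((range N).filter (fun n => α ∈ E n)).card

theorem cnt_eq (E : ℕ → Set ℝ) (N : ℕ) (α : ℝ) :
    ((cnt E N α : ℕ) : ℝ) = ∑ n ∈ range N, (E n).indicator (fun _ => (1 : ℝ)) α := by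
  classical
  unfold cnt
  rw [card_filter]
  push_cast
  apply sum_congr rfl
  intro n _
  rw [Set.indicator_apply]

theorem cnt_meas (E : ℕ → Set ℝ) (hE : ∀ n, MeasurableSet (E n)) (N : ℕ) :
    Measurable (fun α => ((cnt E N α : ℕ) : ℝ)) := by
  have : (fun α => ((cnt E N α : ℕ) : ℝ)) =
      fun α => ∑ n ∈ range N, (E n).indicator (fun _ => (1 : ℝ)) α := by
    ext α
    exact cnt_eq E N α
  rw [this]
  exact Finset.measurable_sum _ (fun n _ => measurable_const.indicator (hE n))

theorem cnt_le (E : ℕ → Set ℝ) (N : ℕ) (α : ℝ) : cnt E N α ≤ N := by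
  classical
  unfold cnt
  exact (card_filter_le _ _).trans (by rw [card_range])

theorem den (E : ℕ → Set ℝ) (hE : ∀ n, MeasurableSet (E n)) (δ : ℝ) (hδ : 0 < δ)
    (h : ∀ u v : ℝ, 0 < u → u < v → ∀ᶠ n : ℕ in atTop,
      δ * (v - u) ≤ (volume (E n ∩ Set.Icc u v)).toReal) :
    ∀ᵐ α : ℝ, 0 < α → ∃ᶠ N : ℕ in atTop, δ / 2 * N ≤ ((cnt E N α : ℕ) : ℝ) := by
  -- the exceptional sets
  set B : ℕ → Set ℝ := fun N₀ => {α | 0 < α ∧ ∀ N : ℕ, N₀ ≤ N → ((cnt E N α : ℕ) : ℝ) < δ / 2 * N}
    with hB
  have hBm : ∀ N₀, MeasurableSet (B N₀) := by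
    intro N₀
    have e : B N₀ = Set.Ioi 0 ∩ ⋂ N : ℕ, ⋂ _ : N₀ ≤ N, {α | ((cnt E N α : ℕ) : ℝ) < δ / 2 * N} := by
      ext α
      simp only [hB, Set.mem_ofPred_eq, Set.mem_inter_iff, Set.mem_Ioi, Set.mem_iInter]
    rw [e]
    apply measurableSet_Ioi.inter
    apply MeasurableSet.iInter
    intro N
    apply MeasurableSet.iInter
    intro _
    exact measurableSet_lt (cnt_meas E hE N) measurable_const
  have hkey : ∀ N₀, volume (B N₀) = 0 := by
    intro N₀
    have hd := Besicovitch.ae_tendsto_measure_inter_div_of_measurableSet (volume : Measure ℝ) (hBm N₀)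
    have hno : ∀ α : ℝ, Tendsto (fun r => volume (B N₀ ∩ Metric.closedBall α r) /
        volume (Metric.closedBall α r)) (𝓝[>] 0) (𝓝 ((B N₀).indicator 1 α)) → α ∉ B N₀ := by
      intro α ht hα
      rw [Set.indicator_of_mem hα, Pi.one_apply] at ht
      have hα0 : 0 < α := hα.1
      set ρ : ℝ := min (δ / 8) (1 / 2) with hρ
      have hρ0 : 0 < ρ := lt_min (by positivity) (by norm_num)
      have hρ1 : ρ ≤ δ / 8 := min_le_left _ _
      have hρ2 : ρ ≤ 1 / 2 := min_le_right _ _
      have h1 : ENNReal.ofReal (1 - ρ) < 1 := by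
        rw [← ENNReal.ofReal_one]
        exact (ENNReal.ofReal_lt_ofReal_iff (by norm_num)).2 (by linarith)
      have h2 : ∀ᶠ r in 𝓝[>] (0 : ℝ), ENNReal.ofReal (1 - ρ) < volume (B N₀ ∩ Metric.closedBall α r) /
        volume (Metric.closedBall α r) := ht.eventually (lt_mem_nhds h1)
      have h3 : ∀ᶠ r in 𝓝[>] (0 : ℝ), r < α := by
        apply nhdsWithin_le_nhds
        exact gt_mem_nhds hα0
      obtain ⟨r, ⟨h4, h5⟩, h6⟩ := (h2.and h3 |>.and self_mem_nhdsWithin).exists
      have hr : 0 < r := h6
      rw [Real.closedBall_eq_Icc] at h4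
      set u := α - r with hu
      set v := α + r with hv
      have hu0 : 0 < u := by rw [hu]; linarith
      have huv : u < v := by rw [hu, hv]; linarith
      set I := Set.Icc u v with hI
      have hIvol : volume I = ENNReal.ofReal (v - u) := by rw [hI, Real.volume_Icc]
      have hIne : volume I ≠ ⊤ := by rw [hIvol]; exact ENNReal.ofReal_ne_top
      have hI0 : 0 < v - u := by linarith
      -- measure of the bad part
      have h7 : ENNReal.ofReal ((1 - ρ) * (v - u)) ≤ volume (B N₀ ∩ I) := by
        have h8 := h4.le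
        rw [ENNReal.le_div_iff_mul_le (Or.inl (by rw [hIvol]; simpa using hI0)) (Or.inl hIne)] at h8
        rw [ENNReal.ofReal_mul (by linarith), ← hIvol]
        exact h8
      have hBI : volume (B N₀ ∩ I) ≠ ⊤ :=
        ne_top_of_le_ne_top hIne (measure_mono Set.inter_subset_right)
      have h9 : (1 - ρ) * (v - u) ≤ (volume (B N₀ ∩ I)).toReal := by
        rw [ENNReal.ofReal_le_iff_le_toReal hBI] at h7
        exact h7
      obtain ⟨n₁, hn₁⟩ := eventually_atTop.1 (h u v hu0 huv)
      -- choose N
      obtain ⟨N, hN⟩ := exists_nat_gt (max (N₀ : ℝ) (8 * ((n₁ : ℝ) + 1)))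
      have hN1 : N₀ ≤ N := by
        have : (N₀ : ℝ) < N := (le_max_left _ _).trans_lt hN
        exact_mod_cast this.le
      have hN2 : 8 * ((n₁ : ℝ) + 1) < N := (le_max_right _ _).trans_lt hN
      have hn₁N : n₁ ≤ N := by
        have : (n₁ : ℝ) ≤ N := by
          have : (0 : ℝ) ≤ n₁ := Nat.cast_nonneg _
          linarith
        exact_mod_cast this
      have hNpos : (0 : ℝ) < N := by
        have : (0 : ℝ) ≤ n₁ := Nat.cast_nonneg _
        linarith
      -- the integral
      have hEI : ∀ n, volume (E n ∩ I) ≠ ⊤ := fun n =>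
        ne_top_of_le_ne_top hIne (measure_mono Set.inter_subset_right)
      have hint : ∫ α in I, ((cnt E N α : ℕ) : ℝ) = ∑ n ∈ range N, (volume (E n ∩ I)).toReal := by
        have e1 : ∀ α, ((cnt E N α : ℕ) : ℝ) = ∑ n ∈ range N, (E n).indicator (fun _ => (1 : ℝ)) α :=
          fun α => cnt_eq E N α
        simp_rw [e1]
        rw [integral_finsetSum]
        · apply sum_congr rfl
          intro n _
          rw [integral_indicator (hE n), Measure.restrict_restrict (hE n)]
          simp [Measure.real]
        · intro n _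
          apply Integrable.indicator _ (hE n)
          exact integrable_const_iff.2 (Or.inr ⟨by rw [Measure.restrict_apply_univ]; exact hIne.lt_top⟩)
      have hlow : δ * (v - u) * (N - n₁) ≤ ∫ α in I, ((cnt E N α : ℕ) : ℝ) := by
        rw [hint]
        have e1 : ∑ n ∈ Ico n₁ N, (volume (E n ∩ I)).toReal ≤ ∑ n ∈ range N, (volume (E n ∩ I)).toReal := by
          apply sum_le_sum_of_subset_of_nonneg
          · intro n hn
            rw [mem_Ico] at hn
            exact mem_range.2 hn.2
          · intro n _ _
            exact ENNReal.toReal_nonneg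
        refine le_trans ?_ e1
        have e2 : ∑ n ∈ Ico n₁ N, δ * (v - u) ≤ ∑ n ∈ Ico n₁ N, (volume (E n ∩ I)).toReal :=
          sum_le_sum fun n hn => hn₁ n (mem_Ico.1 hn).1
        rw [sum_const, Nat.card_Ico, nsmul_eq_mul] at e2
        rw [Nat.cast_sub hn₁N] at e2
        linarith
      have hcint : IntegrableOn (fun α => ((cnt E N α : ℕ) : ℝ)) I := by
        apply Measure.integrableOn_of_bounded (M := (N : ℝ)) hIne
          (cnt_meas E hE N).aestronglyMeasurable
        apply ae_of_all
        intro α
        rw [Real.norm_of_nonneg (Nat.cast_nonneg _)]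
        exact_mod_cast cnt_le E N α
      have hup : ∫ α in I, ((cnt E N α : ℕ) : ℝ) ≤ δ / 2 * N * (v - u) + N * (ρ * (v - u)) := by
        have e1 : ∫ α in I, ((cnt E N α : ℕ) : ℝ) =
            (∫ α in I ∩ B N₀, ((cnt E N α : ℕ) : ℝ)) + ∫ α in I \ B N₀, ((cnt E N α : ℕ) : ℝ) := by
          rw [integral_inter_add_sdiff (hBm N₀) hcint]
        have e2 : ∫ α in I ∩ B N₀, ((cnt E N α : ℕ) : ℝ) ≤ δ / 2 * N * (v - u) := by
          calc ∫ α in I ∩ B N₀, ((cnt E N α : ℕ) : ℝ) ≤ ∫ α in I ∩ B N₀, δ / 2 * (N : ℝ) := by
                apply setIntegral_mono_on (hcint.mono_set Set.inter_subset_left)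
                · apply integrable_const_iff.2 (Or.inr ⟨?_⟩)
                  rw [Measure.restrict_apply_univ]
                  exact (measure_mono Set.inter_subset_left).trans_lt hIne.lt_top
                · exact measurableSet_Icc.inter (hBm N₀)
                · intro α hα
                  exact (hα.2.2 N hN1).le
            _ = δ / 2 * N * (volume (I ∩ B N₀)).toReal := by
                rw [setIntegral_const, smul_eq_mul, Measure.real]
                ring
            _ ≤ δ / 2 * N * (v - u) := by
                apply mul_le_mul_of_nonneg_left _ (by positivity)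
                have : (volume (I ∩ B N₀)).toReal ≤ (volume I).toReal :=
                  ENNReal.toReal_mono hIne (measure_mono Set.inter_subset_left)
                rw [hIvol, ENNReal.toReal_ofReal hI0.le] at this
                exact this
        have e3 : ∫ α in I \ B N₀, ((cnt E N α : ℕ) : ℝ) ≤ N * (ρ * (v - u)) := by
          calc ∫ α in I \ B N₀, ((cnt E N α : ℕ) : ℝ) ≤ ∫ α in I \ B N₀, (N : ℝ) := by
                apply setIntegral_mono_on (hcint.mono_set Set.sdiff_subset)
                · apply integrable_const_iff.2 (Or.inr ⟨?_⟩)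
                  rw [Measure.restrict_apply_univ]
                  exact (measure_mono Set.sdiff_subset).trans_lt hIne.lt_top
                · exact measurableSet_Icc.diff (hBm N₀)
                · intro α _
                  exact_mod_cast cnt_le E N α
            _ = N * (volume (I \ B N₀)).toReal := by
                rw [setIntegral_const, smul_eq_mul, Measure.real]
                ring
            _ ≤ N * (ρ * (v - u)) := by
                apply mul_le_mul_of_nonneg_left _ hNpos.le
                have h10 : volume (I \ B N₀) = volume I - volume (I ∩ B N₀) := by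
                  rw [← Set.sdiff_self_inter, measure_sdiff Set.inter_subset_left
                    (measurableSet_Icc.inter (hBm N₀)).nullMeasurableSet]
                  rw [Set.inter_comm]; exact hBI
                rw [h10, ENNReal.toReal_sub_of_le (measure_mono Set.inter_subset_left) hIne,
                  hIvol, ENNReal.toReal_ofReal hI0.le, Set.inter_comm]
                linarith
        rw [e1]
        linarith
      have h11 := hlow.trans hup
      have h12 : δ * (v - u) * (N - n₁) = δ * N * (v - u) - δ * n₁ * (v - u) := by ring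
      have h13 : δ * n₁ * (v - u) ≤ δ * (N / 8) * (v - u) := by
        apply mul_le_mul_of_nonneg_right _ hI0.le
        apply mul_le_mul_of_nonneg_left _ hδ.le
        have : (0 : ℝ) ≤ n₁ := Nat.cast_nonneg _
        linarith
      have h14 : N * (ρ * (v - u)) ≤ N * (δ / 8 * (v - u)) := by
        apply mul_le_mul_of_nonneg_left _ hNpos.le
        exact mul_le_mul_of_nonneg_right hρ1 hI0.le
      have h15 : 0 < δ * N * (v - u) := by positivity
      nlinarith
    have h16 : ∀ᵐ α, α ∉ B N₀ := by
      filter_upwards [hd] with α hα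
      exact hno α hα
    rw [ae_iff] at h16
    simpa using h16
  have hall : ∀ᵐ α : ℝ, ∀ N₀, α ∉ B N₀ := by
    rw [ae_all_iff]
    intro N₀
    rw [ae_iff]
    simpa using hkey N₀
  filter_upwards [hall] with α hα hα0
  rw [frequently_atTop]
  intro N₀
  by_contra hcon
  push Not at hcon
  apply hα N₀
  exact ⟨hα0, fun N hN => hcon N hN⟩

end Pool.Agent.K7.H60.MT
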