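import Pool.Agent.K7.H60.LK.Sec
import Pool.Agent.Cov.PNT

/-! Many primes just above a positive proportion of the integers of a local range. -/

set_option autoImplicit false

namespace Pool.Agent.K7.H60.MT

open Finset Filter Topology Pool.Agent.Erdos456 Pool.Agent.K7.H60.LK

/-- second moment method -/
theorem pz (T : Finset ℕ) (f : ℕ → ℝ) (s0 Q η : ℝ) (hf : ∀ t, 0 ≤ f t) (hs0 : 0 < s0)
    (hQ : 0 ≤ Q) (h1 : s0 ≤ ∑ t ∈ T, f t) (h2 : ∑ t ∈ T, f t ^ 2 ≤ ∑ t ∈ T, f t + Q)
    (h3 : η * T.card ≤ s0 / 2) :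
    s0 ^ 2 / (4 * (s0 + Q)) ≤ ((T.filter (fun t => η ≤ f t)).card : ℝ) := by
  set S := ∑ t ∈ T, f t with hS
  set G := T.filter (fun t => η ≤ f t) with hG
  have hSpos : 0 < S := by linarith
  have e1 : S / 2 ≤ ∑ t ∈ G, f t := by
    have h4 : S = ∑ t ∈ G, f t + ∑ t ∈ T.filter (fun t => ¬ η ≤ f t), f t := by
      rw [hS, hG, sum_filter_add_sum_filter_not]
    have h5 : ∑ t ∈ T.filter (fun t => ¬ η ≤ f t), f t ≤ s0 / 2 := by
      by_cases hη : 0 ≤ η
      · calc _ ≤ ∑ t ∈ T.filter (fun t => ¬ η ≤ f t), η := sum_le_sum fun t ht =>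
              (not_le.1 (mem_filter.1 ht).2).le
          _ ≤ ∑ t ∈ T, η := sum_le_sum_of_subset_of_nonneg (filter_subset _ _) fun _ _ _ => hη
          _ = η * T.card := by rw [sum_const, nsmul_eq_mul, mul_comm]
          _ ≤ _ := h3
      · push Not at hη
        have : T.filter (fun t => ¬ η ≤ f t) = ∅ := by
          apply filter_eq_empty_iff.2
          intro t _ h6
          exact h6 (hη.le.trans (hf t))
        rw [this, sum_empty]
        linarith
    linarith
  have e2 : (∑ t ∈ G, f t) ^ 2 ≤ (G.card : ℝ) * (S + Q) := by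
    have h4 := sum_mul_sq_le_sq_mul_sq G (fun _ => (1 : ℝ)) f
    simp only [one_mul, one_pow, sum_const, nsmul_eq_mul, mul_one] at h4
    refine h4.trans ?_
    apply mul_le_mul_of_nonneg_left _ (Nat.cast_nonneg _)
    refine le_trans ?_ h2
    exact sum_le_sum_of_subset_of_nonneg (filter_subset _ _) fun t _ _ => sq_nonneg _
  have e3 : (S / 2) ^ 2 ≤ (G.card : ℝ) * (S + Q) :=
    (pow_le_pow_left₀ (by linarith) e1 2).trans e2
  rw [div_le_iff₀ (by positivity)]
  have e4 : s0 ^ 2 * (S + Q) ≤ S ^ 2 * (s0 + Q) := by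
    have a1 : 0 ≤ S * s0 * (S - s0) := mul_nonneg (by positivity) (by linarith)
    have a2 : 0 ≤ Q * ((S - s0) * (S + s0)) :=
      mul_nonneg hQ (mul_nonneg (by linarith) (by linarith))
    nlinarith
  have e5 : S ^ 2 * (s0 + Q) ≤ (G.card : ℝ) * (4 * (s0 + Q)) * (S + Q) := by
    have := mul_le_mul_of_nonneg_right e3 (by positivity : 0 ≤ 4 * (s0 + Q))
    nlinarith
  have e6 : s0 ^ 2 * (S + Q) ≤ (G.card : ℝ) * (4 * (s0 + Q)) * (S + Q) := e4.trans e5
  exact le_of_mul_le_mul_right e6 (by linarith)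

theorem second_loc : ∃ C : ℝ, 0 < C ∧ ∀ X H Z : ℕ, 2 ≤ Z → 1 ≤ H →
    ∑ t ∈ Icc 1 Z, (Nk 0 X H t : ℝ) ^ 2 ≤ ∑ t ∈ Icc 1 Z, (Nk 0 X H t : ℝ) +
      C * (H : ℝ) ^ 2 * Z / (Real.log Z) ^ 2 := by
  obtain ⟨C1, hC1, h1⟩ := sieve_two'
  obtain ⟨C2, hC2, h2⟩ := sum_GG_sq
  refine ⟨4 * C1 * C2, by positivity, fun X H Z hZ hH => ?_⟩
  have hZr : (2 : ℝ) ≤ Z := by exact_mod_cast hZ
  have hlogZ : 0 < Real.log Z := Real.log_pos (by linarith)
  have hH0 : (1 : ℝ) ≤ H := by exact_mod_cast hH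
  have e1 : ∑ t ∈ Icc 1 Z, (Nk 0 X H t : ℝ) ^ 2 = ∑ t ∈ Icc 1 Z, (Nk 0 X H t : ℝ) +
      ∑ h ∈ range (H + 1), ∑ h' ∈ range (H + 1), (if h < h' then
        2 * (((Icc 1 Z).filter (fun k => (1 * k + (X + h)).Prime ∧
      (1 * k + (X + h')).Prime)).card : ℝ) else 0) := by
    have e2 : ∀ k ∈ Icc 1 Z, (Nk 0 X H k : ℝ) ^ 2 = (Nk 0 X H k : ℝ) +
        ∑ h ∈ range (H + 1), ∑ h' ∈ range (H + 1),
          (if h < h' then (if (1 * k + (X + h)).Prime ∧ (1 * k + (X + h')).Prime then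
            (2 : ℝ) else 0) else 0) := by
      intro k _
      rw [Nk_sq]
      rfl
    rw [sum_congr rfl e2, sum_add_distrib]
    congr 1
    rw [sum_comm]
    apply sum_congr rfl
    intro h _
    rw [sum_comm]
    apply sum_congr rfl
    intro h' _
    split_ifs with hlt
    · rw [← sum_filter, sum_const, nsmul_eq_mul, mul_comm]
    · exact sum_const_zero
  rw [e1]
  apply add_le_add_right
  have e3 : ∀ h ∈ range (H + 1), ∑ h' ∈ range (H + 1), (if h < h' then
        2 * (((Icc 1 Z).filter (fun k => (1 * k + (X + h)).Prime ∧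
      (1 * k + (X + h')).Prime)).card : ℝ) else 0) ≤ 2 * (C1 * (C2 * H) * Z / (Real.log Z) ^ 2) := by
    intro h hh
    rw [mem_range] at hh
    rw [← sum_filter, ← mul_sum]
    apply mul_le_mul_of_nonneg_left _ (by norm_num)
    have e4 : ∑ h' ∈ (range (H + 1)).filter (fun h' => h < h'),
        (((Icc 1 Z).filter (fun k => (1 * k + (X + h)).Prime ∧
      (1 * k + (X + h')).Prime)).card : ℝ) ≤
        ∑ h' ∈ (range (H + 1)).filter (fun h' => h < h'),
          C1 * GG (h' - h) ^ 2 * Z / (Real.log Z) ^ 2 := by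
      apply sum_le_sum
      intro h' hh'
      rw [mem_filter] at hh'
      have h3 := h1 1 (X + h) 1 (X + h') Z one_pos one_pos (Nat.coprime_one_left _)
        (Nat.coprime_one_left _) (by omega) hZ
      have e5 : (1 * 1 * (((1 * (X + h') : ℕ) : ℤ) - ((1 * (X + h) : ℕ) : ℤ)).natAbs) = h' - h := by
        have : ((1 * (X + h') : ℕ) : ℤ) - ((1 * (X + h) : ℕ) : ℤ) = ((h' - h : ℕ) : ℤ) := by
          push_cast [Nat.cast_sub hh'.2.le]
          ring
        rw [this, Int.natAbs_natCast]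
        ring
      rw [e5] at h3
      exact h3
    refine e4.trans ?_
    rw [← sum_div, ← sum_mul, ← mul_sum]
    apply div_le_div_of_nonneg_right _ (by positivity)
    apply mul_le_mul_of_nonneg_right _ (by positivity)
    apply mul_le_mul_of_nonneg_left _ hC1.le
    refine le_trans ?_ (h2 H)
    rw [← sum_image (s := (range (H + 1)).filter (fun h' => h < h')) (g := fun h' => h' - h)
      (f := fun e => GG e ^ 2)]
    · apply sum_le_sum_of_subset_of_nonneg
      · intro e he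
        rw [mem_image] at he
        obtain ⟨h', hh', rfl⟩ := he
        rw [mem_filter, mem_range] at hh'
        rw [mem_Ioc]
        omega
      · intro e _ _
        positivity
    · intro x hx y hy hxy
      simp only [coe_filter, mem_range, Set.mem_ofPred_eq] at hx hy hxy
      omega
  refine (sum_le_sum e3).trans ?_
  rw [sum_const, card_range, nsmul_eq_mul]
  push_cast
  have e5 : ((H : ℝ) + 1) * (2 * (C1 * (C2 * H) * Z / (Real.log Z) ^ 2)) =
      2 * C1 * C2 * H * (H + 1) * Z / (Real.log Z) ^ 2 := by ring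
  rw [e5]
  apply div_le_div_of_nonneg_right _ (by positivity)
  apply mul_le_mul_of_nonneg_right _ (by positivity)
  have : 2 * C1 * C2 * H * (H + 1) ≤ 2 * C1 * C2 * H * (2 * H) := by
    apply mul_le_mul_of_nonneg_left _ (by positivity)
    linarith
  nlinarith

theorem first_loc (X H Z : ℕ) : ((H : ℝ) + 1) *
    (((Ioc (X + H) (X + Z)).filter Nat.Prime).card : ℝ) ≤ ∑ t ∈ Icc 1 Z, (Nk 0 X H t : ℝ) := by
  have e1 : ∑ t ∈ Icc 1 Z, (Nk 0 X H t : ℝ) = ∑ h ∈ range (H + 1),
      (((Icc 1 Z).filter (fun t => (2 ^ 0 * t + (X + h)).Prime)).card : ℝ) := by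
    have e2 : ∀ t ∈ Icc 1 Z, (Nk 0 X H t : ℝ) = ∑ h ∈ range (H + 1),
        (if (2 ^ 0 * t + (X + h)).Prime then (1 : ℝ) else 0) := by
      intro t _
      unfold Nk
      rw [card_filter]
      push_cast
      rfl
    rw [sum_congr rfl e2, sum_comm]
    apply sum_congr rfl
    intro h _
    rw [← sum_filter, sum_const, nsmul_eq_mul, mul_one]
  rw [e1]
  have e3 : ∀ h ∈ range (H + 1), (((Ioc (X + H) (X + Z)).filter Nat.Prime).card : ℝ) ≤
      (((Icc 1 Z).filter (fun t => (2 ^ 0 * t + (X + h)).Prime)).card : ℝ) := by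
    intro h hh
    rw [mem_range] at hh
    apply Nat.cast_le.mpr
    apply card_le_card_of_injOn (fun p => p - (X + h))
    · intro p hp
      simp only [coe_filter, mem_Ioc, Set.mem_ofPred_eq] at hp
      simp only [coe_filter, mem_Icc, Set.mem_ofPred_eq]
      refine ⟨⟨by omega, by omega⟩, ?_⟩
      have : 2 ^ 0 * (p - (X + h)) + (X + h) = p := by
        rw [pow_zero]; omega
      rw [this]
      exact hp.2
    · intro p hp p' hp' e
      simp only [coe_filter, mem_Ioc, Set.mem_ofPred_eq] at hp hp' e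
      omega
  have e4 := sum_le_sum e3
  rw [sum_const, card_range, nsmul_eq_mul] at e4
  push_cast at e4
  exact e4

/-- primes in `(u 2^n, v 2^n]` -/
theorem pi_diff (u v : ℝ) (hu : 0 < u) (huv : u < v) : ∀ᶠ n : ℕ in atTop,
    (v - u) * 2 ^ n / n + (n : ℝ) ^ 2 + 2 ≤ (Nat.primeCounting ⌊v * 2 ^ n⌋₊ : ℝ) -
      (Nat.primeCounting ⌊u * 2 ^ n⌋₊ : ℝ) := by
  have hlog2 : 0 < Real.log 2 := Real.log_pos (by norm_num)
  have key : ∀ w : ℝ, 0 < w → Tendsto (fun n : ℕ => (Nat.primeCounting ⌊w * 2 ^ n⌋₊ : ℝ) *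
      (n / 2 ^ n)) atTop (𝓝 (w / Real.log 2)) := by
    intro w hw
    have h1 : Tendsto (fun n : ℕ => w * (2 : ℝ) ^ n) atTop atTop :=
      (tendsto_pow_atTop_atTop_of_one_lt (by norm_num)).const_mul_atTop hw
    have h2 := Pool.Agent.Cov.PNT.pi_tendsto.comp h1
    have h3 : Tendsto (fun n : ℕ => (n : ℝ) / (n * Real.log 2 + Real.log w)) atTop
        (𝓝 (1 / Real.log 2)) := by
      have h4 : Tendsto (fun n : ℕ => 1 / (Real.log 2 + Real.log w / n)) atTop
          (𝓝 (1 / (Real.log 2 + 0))) := by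
        apply Tendsto.div tendsto_const_nhds _ (by linarith)
        apply tendsto_const_nhds.add
        exact tendsto_const_nhds.div_atTop tendsto_natCast_atTop_atTop
      rw [add_zero] at h4
      refine h4.congr' ?_
      filter_upwards [eventually_ge_atTop 1] with n hn
      have hn0 : (n : ℝ) ≠ 0 := by
        have : (1 : ℝ) ≤ n := by exact_mod_cast hn
        linarith
      field_simp
    have h5 := (h2.mul h3).mul_const w
    have e0 : (1 : ℝ) * (1 / Real.log 2) * w = w / Real.log 2 := by ring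
    rw [e0] at h5
    refine h5.congr' ?_
    have hev : ∀ᶠ n : ℕ in atTop, (n : ℝ) * Real.log 2 + Real.log w ≠ 0 := by
      have h6 : Tendsto (fun n : ℕ => (n : ℝ) * Real.log 2 + Real.log w) atTop atTop :=
        tendsto_atTop_add_const_right _ _
          (tendsto_natCast_atTop_atTop.atTop_mul_const hlog2)
      filter_upwards [h6.eventually_gt_atTop 0] with n hn
      exact hn.ne'
    filter_upwards [hev] with n hn
    simp only [Function.comp]
    rw [Real.log_mul hw.ne' (by positivity), Real.log_pow]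
    have e : Real.log w + (n : ℝ) * Real.log 2 = (n : ℝ) * Real.log 2 + Real.log w := by ring
    rw [e]
    field_simp
  have h1 := (key v (hu.trans huv)).sub (key u hu)
  have h2 : Tendsto (fun n : ℕ => ((n : ℝ) ^ 2 + 2) * (n / 2 ^ n)) atTop (𝓝 0) := by
    have a1 := tendsto_pow_const_div_const_pow_of_one_lt 3 (show (1 : ℝ) < 2 by norm_num)
    have a2 := tendsto_pow_const_div_const_pow_of_one_lt 1 (show (1 : ℝ) < 2 by norm_num)
    have a3 := a1.add (a2.const_mul 2)
    rw [mul_zero, add_zero] at a3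
    refine a3.congr fun n => ?_
    ring
  have h3 := h1.sub h2
  have hlim : v - u < v / Real.log 2 - u / Real.log 2 - 0 := by
    have h4 : Real.log 2 < 1 := by have := Real.log_two_lt_d9; linarith
    have h5 : v / Real.log 2 - u / Real.log 2 - 0 = (v - u) / Real.log 2 := by ring
    rw [h5, lt_div_iff₀ hlog2]
    nlinarith
  filter_upwards [h3.eventually (lt_mem_nhds hlim), eventually_ge_atTop 1] with n hn hn1
  have hn0 : (1 : ℝ) ≤ n := by exact_mod_cast hn1
  have h2n : (0 : ℝ) < 2 ^ n := by positivity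
  have e1 : (Nat.primeCounting ⌊v * 2 ^ n⌋₊ : ℝ) * (n / 2 ^ n) -
      (Nat.primeCounting ⌊u * 2 ^ n⌋₊ : ℝ) * (n / 2 ^ n) - ((n : ℝ) ^ 2 + 2) * (n / 2 ^ n) =
      ((Nat.primeCounting ⌊v * 2 ^ n⌋₊ : ℝ) - (Nat.primeCounting ⌊u * 2 ^ n⌋₊ : ℝ) -
        ((n : ℝ) ^ 2 + 2)) * (n / 2 ^ n) := by ring
  rw [e1] at hn
  have h6 : (v - u) * 2 ^ n / n < (Nat.primeCounting ⌊v * 2 ^ n⌋₊ : ℝ) -
      (Nat.primeCounting ⌊u * 2 ^ n⌋₊ : ℝ) - ((n : ℝ) ^ 2 + 2) := by
    have hq : 0 < (n : ℝ) / 2 ^ n := by positivity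
    have : (v - u) / (n / 2 ^ n) = (v - u) * 2 ^ n / n := by
      field_simp
    rw [← this, div_lt_iff₀ hq]
    exact hn
  linarith

end Pool.Agent.K7.H60.MT
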