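import Pool.Agent.K7.H60.MT.Loc
import Pool.Agent.K7.H60.MT.Den
import Pool.Agent.K7.H60.SQ.PN
import Pool.Agent.K7.H60.SQ.PN2

/-! Many primes just above `α 2^n` for a positive upper density of `n`, for almost all `α`. -/

set_option autoImplicit false

namespace Pool.Agent.K7.H60.MT

open Finset Filter Topology MeasureTheory Pool.Agent.K7.H60.LK

theorem loc_good : ∃ δ : ℝ, 0 < δ ∧ ∀ u v : ℝ, 0 < u → u < v → ∀ᶠ n : ℕ in atTop, ∀ H : ℕ,
    n ≤ H → H ≤ n ^ 2 → δ * ((v - u) * 2 ^ n) ≤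
      (((Icc 1 (⌊v * 2 ^ n⌋₊ - (⌊u * 2 ^ n⌋₊ + 1))).filter (fun t => (H : ℝ) / (2 * n) ≤
        (Nk 0 (⌊u * 2 ^ n⌋₊ + 1) H t : ℝ))).card : ℝ) := by
  obtain ⟨C, hC, hsec⟩ := second_loc
  refine ⟨1 / (4 * (1 + 4 * C)), by positivity, fun u v hu huv => ?_⟩
  have hlog2 : 0 < Real.log 2 := Real.log_pos (by norm_num)
  have hv : 0 < v := hu.trans huv
  have ht : Tendsto (fun n : ℕ => (v - u) * (2 : ℝ) ^ n) atTop atTop :=
    (tendsto_pow_atTop_atTop_of_one_lt (by norm_num)).const_mul_atTop (by linarith)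
  have ht2 : Tendsto (fun n : ℕ => (n : ℝ) * (Real.log 2 - 1 / 2) + Real.log ((v - u) / 2))
      atTop atTop := by
    apply tendsto_atTop_add_const_right
    apply tendsto_natCast_atTop_atTop.atTop_mul_const
    have := Real.log_two_gt_d9
    linarith
  filter_upwards [pi_diff u v hu huv, eventually_ge_atTop 2, ht.eventually_ge_atTop 8,
    ht2.eventually_ge_atTop 0] with n hn hn2 ht8 hlogn H hH1 hH2
  have hn0 : (2 : ℝ) ≤ n := by exact_mod_cast hn2
  set A : ℝ := (v - u) * 2 ^ n with hA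
  set U := ⌊u * 2 ^ n⌋₊ with hU
  set V := ⌊v * 2 ^ n⌋₊ with hV
  have hU1 : (U : ℝ) ≤ u * 2 ^ n := Nat.floor_le (by positivity)
  have hU2 : u * 2 ^ n < U + 1 := Nat.lt_floor_add_one _
  have hV1 : (V : ℝ) ≤ v * 2 ^ n := Nat.floor_le (by positivity)
  have hV2 : v * 2 ^ n < V + 1 := Nat.lt_floor_add_one _
  have hAuv : A = v * 2 ^ n - u * 2 ^ n := by rw [hA]; ring
  have hUV : U + 1 ≤ V := by
    have : (U : ℝ) + 1 ≤ V := by linarith
    exact_mod_cast this
  set X := U + 1 with hX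
  set Z := V - X with hZ
  have hZr : (Z : ℝ) = V - (U + 1) := by
    rw [hZ, Nat.cast_sub hUV, hX]; push_cast; ring
  have hZA : (Z : ℝ) ≤ A := by rw [hZr]; linarith
  have hZA2 : A / 2 ≤ Z := by rw [hZr]; linarith
  have hZ2 : 2 ≤ Z := by
    have : (2 : ℝ) ≤ Z := by linarith
    exact_mod_cast this
  have hXZ : X + Z = V := by omega
  have hH0 : 1 ≤ H := by omega
  have hHr : (n : ℝ) ≤ H := by exact_mod_cast hH1
  have hH2r : (H : ℝ) ≤ (n : ℝ) ^ 2 := by exact_mod_cast hH2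
  -- first moment
  have hP : A / n ≤ (((Ioc (X + H) (X + Z)).filter Nat.Prime).card : ℝ) := by
    have h1 : Nat.primeCounting V ≤ Nat.primeCounting U + (H + 1) +
        ((Ioc (X + H) (X + Z)).filter Nat.Prime).card := by
      have e1 : Nat.primeCounting V = ((range (V + 1)).filter Nat.Prime).card := by
        rw [Nat.primeCounting, Nat.primeCounting', Nat.count_eq_card_filter_range]
      have e2 : Nat.primeCounting U = ((range (U + 1)).filter Nat.Prime).card := by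
        rw [Nat.primeCounting, Nat.primeCounting', Nat.count_eq_card_filter_range]
      rw [e1, e2]
      have hsub : (range (V + 1)).filter Nat.Prime ⊆ ((range (U + 1)).filter Nat.Prime ∪
          Ioc U (X + H)) ∪ (Ioc (X + H) (X + Z)).filter Nat.Prime := by
        intro p hp
        rw [mem_filter, mem_range] at hp
        rw [mem_union, mem_union, mem_filter, mem_range, mem_Ioc, mem_filter, mem_Ioc]
        by_cases h1 : p ≤ U
        · exact Or.inl (Or.inl ⟨by omega, hp.2⟩)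
        · by_cases h2 : p ≤ X + H
          · exact Or.inl (Or.inr ⟨by omega, h2⟩)
          · exact Or.inr ⟨⟨by omega, by omega⟩, hp.2⟩
      have h2 := (card_le_card hsub).trans ((card_union_le _ _).trans
        (Nat.add_le_add_right (card_union_le _ _) _))
      rw [Nat.card_Ioc] at h2
      omega
    have h2 : (Nat.primeCounting V : ℝ) ≤ (Nat.primeCounting U : ℝ) + (H + 1) +
        (((Ioc (X + H) (X + Z)).filter Nat.Prime).card : ℝ) := by exact_mod_cast h1
    have h3 : A / n = (v - u) * 2 ^ n / n := by rw [hA]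
    rw [h3]
    linarith
  have hA0 : 0 < A := by linarith
  set s0 : ℝ := H * A / n with hs0
  have hs0pos : 0 < s0 := by positivity
  have hS1 : s0 ≤ ∑ t ∈ Icc 1 Z, (Nk 0 X H t : ℝ) := by
    refine le_trans ?_ (first_loc X H Z)
    calc s0 = H * (A / n) := by rw [hs0]; ring
      _ ≤ (H + 1) * (A / n) := by
          apply mul_le_mul_of_nonneg_right _ (by positivity)
          linarith
      _ ≤ _ := mul_le_mul_of_nonneg_left hP (by positivity)
  have hlogZ : (n : ℝ) / 2 ≤ Real.log Z := by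
    have h1 : Real.log (A / 2) ≤ Real.log Z := Real.log_le_log (by positivity) hZA2
    have h2 : Real.log (A / 2) = Real.log ((v - u) / 2) + n * Real.log 2 := by
      have : A / 2 = (v - u) / 2 * 2 ^ n := by rw [hA]; ring
      rw [this, Real.log_mul (by linarith) (by positivity), Real.log_pow]
    rw [h2] at h1
    linarith
  set Q : ℝ := 4 * C * (H : ℝ) ^ 2 * A / (n : ℝ) ^ 2 with hQ
  have hS2 : ∑ t ∈ Icc 1 Z, (Nk 0 X H t : ℝ) ^ 2 ≤ ∑ t ∈ Icc 1 Z, (Nk 0 X H t : ℝ) + Q := by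
    refine (hsec X H Z hZ2 hH0).trans ?_
    apply add_le_add_right
    calc C * (H : ℝ) ^ 2 * Z / (Real.log Z) ^ 2 ≤ C * (H : ℝ) ^ 2 * A / ((n : ℝ) / 2) ^ 2 := by
          apply div_le_div₀ (by positivity) _ (by positivity)
          · exact pow_le_pow_left₀ (by positivity) hlogZ 2
          · exact mul_le_mul_of_nonneg_left hZA (by positivity)
      _ = Q := by rw [hQ]; field_simp; ring
  have h3 : (H : ℝ) / (2 * n) * ((Icc 1 Z).card : ℝ) ≤ s0 / 2 := by
    rw [Nat.card_Icc, Nat.add_sub_cancel]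
    calc (H : ℝ) / (2 * n) * Z ≤ (H : ℝ) / (2 * n) * A :=
          mul_le_mul_of_nonneg_left hZA (by positivity)
      _ = s0 / 2 := by rw [hs0]; field_simp
  have hmain := pz (Icc 1 Z) (fun t => (Nk 0 X H t : ℝ)) s0 Q ((H : ℝ) / (2 * n))
    (fun t => Nat.cast_nonneg _) hs0pos (by positivity) hS1 hS2 h3
  refine le_trans ?_ hmain
  rw [le_div_iff₀ (by positivity)]
  have e1 : 1 / (4 * (1 + 4 * C)) * A * (4 * (s0 + Q)) = (s0 + Q) * A / (1 + 4 * C) := by
    field_simp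
  rw [e1, div_le_iff₀ (by positivity)]
  have e2 : s0 * A ≤ s0 ^ 2 := by
    have : A ≤ s0 := by
      rw [hs0, le_div_iff₀ (by linarith)]
      nlinarith
    nlinarith
  have e3 : Q * A = 4 * C * s0 ^ 2 := by
    rw [hQ, hs0]; field_simp
  nlinarith

/-- the good integers -/
def GI (H : ℕ) (η : ℝ) : Set ℕ := {x : ℕ | η ≤
  (((range (H + 1)).filter (fun h => (x + h).Prime)).card : ℝ)}

/-- the good reals -/
def ER (n H : ℕ) (η : ℝ) : Set ℝ := {α : ℝ | ⌈α * 2 ^ n⌉₊ ∈ GI H η}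

theorem ER_meas (n H : ℕ) (η : ℝ) : MeasurableSet (ER n H η) := by
  have h1 : Measurable (fun α : ℝ => ⌈α * 2 ^ n⌉₊) :=
    Nat.measurable_ceil.comp (measurable_id.mul_const _)
  exact h1 (MeasurableSet.of_discrete)

theorem Nk_zero (X H t : ℕ) : Nk 0 X H t =
    ((range (H + 1)).filter (fun h => (t + X + h).Prime)).card := by
  unfold Nk
  congr 1
  apply filter_congr
  intro h _
  rw [pow_zero, one_mul, add_assoc]

theorem meas_low (n H : ℕ) (η u v : ℝ) (hu : 0 < u) (huv : u < v) (D : ℝ)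
    (h : D ≤ (((Icc 1 (⌊v * 2 ^ n⌋₊ - (⌊u * 2 ^ n⌋₊ + 1))).filter (fun t => η ≤
        (Nk 0 (⌊u * 2 ^ n⌋₊ + 1) H t : ℝ))).card : ℝ)) :
    D / 2 ^ n ≤ (volume (ER n H η ∩ Set.Icc u v)).toReal := by
  have hv : 0 < v := hu.trans huv
  have h2n : (0 : ℝ) < 2 ^ n := by positivity
  set U := ⌊u * 2 ^ n⌋₊ with hU
  set V := ⌊v * 2 ^ n⌋₊ with hV
  have hU2 : u * 2 ^ n < U + 1 := Nat.lt_floor_add_one _
  have hV1 : (V : ℝ) ≤ v * 2 ^ n := Nat.floor_le (by positivity)
  set F := (Icc 1 (V - (U + 1))).filter (fun t => η ≤ (Nk 0 (U + 1) H t : ℝ)) with hF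
  set J : ℕ → Set ℝ := fun t => Set.Ioc (((t : ℝ) + U) / 2 ^ n) (((t : ℝ) + U + 1) / 2 ^ n) with hJ
  have hsub : (⋃ t ∈ F, J t) ⊆ ER n H η ∩ Set.Icc u v := by
    intro α hα
    simp only [Set.mem_iUnion, hJ, Set.mem_Ioc] at hα
    obtain ⟨t, ht, h1, h2⟩ := hα
    rw [hF, mem_filter, mem_Icc] at ht
    rw [div_lt_iff₀ h2n] at h1
    rw [le_div_iff₀ h2n] at h2
    have ht1 : (1 : ℝ) ≤ t := by exact_mod_cast ht.1.1
    have ht2 : t + (U + 1) ≤ V := by omega
    have ht2r : (t : ℝ) + (U + 1) ≤ V := by exact_mod_cast ht2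
    refine ⟨?_, ?_, ?_⟩
    · show ⌈α * 2 ^ n⌉₊ ∈ GI H η
      have hc : ⌈α * 2 ^ n⌉₊ = t + (U + 1) := by
        rw [Nat.ceil_eq_iff (by omega)]
        constructor
        · have : ((t + (U + 1) - 1 : ℕ) : ℝ) = (t : ℝ) + U := by
            rw [show t + (U + 1) - 1 = t + U by omega]; push_cast; ring
          rw [this]; exact h1
        · push_cast; linarith
      rw [hc]
      show η ≤ _
      have := ht.2
      rw [Nk_zero] at this
      exact this
    · have h3 : u * 2 ^ n ≤ α * 2 ^ n := by linarith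
      exact le_of_mul_le_mul_right h3 h2n
    · have h3 : α * 2 ^ n ≤ v * 2 ^ n := by linarith
      exact le_of_mul_le_mul_right h3 h2n
  have hdisj : (F : Set ℕ).PairwiseDisjoint J := by
    intro t _ t' _ htt
    rw [Function.onFun, Set.disjoint_left]
    intro α h1 h2
    simp only [hJ, Set.mem_Ioc] at h1 h2
    rw [div_lt_iff₀ h2n, le_div_iff₀ h2n] at h1 h2
    apply htt
    rcases lt_trichotomy t t' with h3 | h3 | h3
    · have : (t : ℝ) + 1 ≤ t' := by exact_mod_cast h3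
      linarith
    · exact h3
    · have : (t' : ℝ) + 1 ≤ t := by exact_mod_cast h3
      linarith
  have hvol : volume (⋃ t ∈ F, J t) = ENNReal.ofReal ((F.card : ℝ) / 2 ^ n) := by
    rw [measure_biUnion_finset hdisj (fun t _ => measurableSet_Ioc)]
    have h1 : ∀ t ∈ F, volume (J t) = ENNReal.ofReal (1 / 2 ^ n) := by
      intro t _
      simp only [hJ]
      rw [Real.volume_Ioc]
      congr 1
      field_simp
      ring
    rw [sum_congr rfl h1, sum_const, ← ENNReal.ofReal_nsmul, nsmul_eq_mul]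
    congr 1
    ring
  have hfin : volume (ER n H η ∩ Set.Icc u v) ≠ ⊤ := by
    apply ne_top_of_le_ne_top _ (measure_mono Set.inter_subset_right)
    rw [Real.volume_Icc]
    exact ENNReal.ofReal_ne_top
  have h1 := measure_mono (μ := volume) hsub
  rw [hvol, ENNReal.ofReal_le_iff_le_toReal hfin] at h1
  refine le_trans ?_ h1
  exact div_le_div_of_nonneg_right h h2n.le

/-- the number of the primes in `[y, y + L]` -/
noncomputable def npr (y L : ℝ) : ℕ := {p : ℕ | p.Prime ∧ y ≤ p ∧ (p : ℝ) ≤ y + L}.ncard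

theorem npr_ge (y : ℝ) (hy : 0 ≤ y) (H : ℕ) (L : ℝ) (hL : (H : ℝ) + 1 ≤ L) :
    ((range (H + 1)).filter (fun h => (⌈y⌉₊ + h).Prime)).card ≤ npr y L := by
  unfold npr
  rw [← Set.ncard_coe_finset]
  have hfin : {p : ℕ | p.Prime ∧ y ≤ p ∧ (p : ℝ) ≤ y + L}.Finite := by
    apply (Set.finite_Iic ⌊y + L⌋₊).subset
    rintro p ⟨-, -, hp⟩
    exact Nat.le_floor hp
  apply Set.ncard_le_ncard_of_injOn (fun h => ⌈y⌉₊ + h) _ _ hfin
  · intro h hh
    simp only [coe_filter, mem_range, Set.mem_ofPred_eq] at hh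
    refine ⟨hh.2, ?_, ?_⟩
    · have := Nat.le_ceil y
      push_cast
      have : (0 : ℝ) ≤ h := Nat.cast_nonneg _
      linarith
    · have h1 := Nat.ceil_lt_add_one hy
      have h2 : (h : ℝ) ≤ H := by
        have : h ≤ H := by omega
        exact_mod_cast this
      push_cast
      linarith
  · intro h _ h' _ e
    simp only at e
    omega

open scoped Classical in
theorem many : ∃ c δ : ℝ, 0 < c ∧ 0 < δ ∧ ∀ᵐ α : ℝ, 0 < α → ∃ᶠ N : ℕ in atTop,
    δ * N ≤ (((range N).filter (fun n : ℕ => c * Real.log n ≤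
      (npr (α * 2 ^ n) (Nat.nth Nat.Prime (n - 1)) : ℝ))).card : ℝ) := by
  obtain ⟨δ, hδ, hloc⟩ := loc_good
  have hlog : Tendsto (fun n : ℕ => Real.log (n : ℝ)) atTop atTop :=
    Real.tendsto_log_atTop.comp tendsto_natCast_atTop_atTop
  have hev : ∀ᶠ n : ℕ in atTop, n ≤ Nat.nth Nat.Prime (n - 1) - 1 ∧
      Nat.nth Nat.Prime (n - 1) - 1 ≤ n ^ 2 ∧
      1 / 32 * Real.log n ≤ ((Nat.nth Nat.Prime (n - 1) - 1 : ℕ) : ℝ) / (2 * n) := by
    filter_upwards [SQ.nth_le, SQ.nth_ge, hlog.eventually_ge_atTop 16, eventually_ge_atTop 16,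
      (tendsto_natCast_atTop_atTop (R := ℝ)).eventually ((Real.isLittleO_log_id_atTop).bound
        (show (0 : ℝ) < 1 / 4 by norm_num))] with n h1 h2 h3 h4 h5
    have hn : (16 : ℝ) ≤ n := by exact_mod_cast h4
    simp only [id, Real.norm_eq_abs] at h5
    rw [abs_of_nonneg (by linarith : (0 : ℝ) ≤ Real.log n), abs_of_nonneg (by linarith : (0 : ℝ) ≤ n)] at h5
    set p := Nat.nth Nat.Prime (n - 1) with hp
    have h6 : (n : ℝ) + 1 ≤ p := by nlinarith
    have h7 : n + 1 ≤ p := by exact_mod_cast h6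
    have hcast : ((p - 1 : ℕ) : ℝ) = (p : ℝ) - 1 := by
      rw [Nat.cast_sub (by omega)]; norm_num
    refine ⟨by omega, ?_, ?_⟩
    · have h8 : (p : ℝ) ≤ (n : ℝ) ^ 2 := by nlinarith
      have h9 : p ≤ n ^ 2 := by exact_mod_cast h8
      omega
    · rw [hcast, le_div_iff₀ (by positivity)]
      nlinarith
  set E : ℕ → Set ℝ := fun n => ER n (Nat.nth Nat.Prime (n - 1) - 1) (1 / 32 * Real.log n) with hE
  have hden := den E (fun n => ER_meas _ _ _) δ hδ (by
    intro u v hu huv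
    filter_upwards [hloc u v hu huv, hev] with n h1 h2
    have h3 := h1 _ h2.1 h2.2.1
    have h4 : δ * ((v - u) * 2 ^ n) ≤
      (((Icc 1 (⌊v * 2 ^ n⌋₊ - (⌊u * 2 ^ n⌋₊ + 1))).filter (fun t => 1 / 32 * Real.log n ≤
        (Nk 0 (⌊u * 2 ^ n⌋₊ + 1) (Nat.nth Nat.Prime (n - 1) - 1) t : ℝ))).card : ℝ) := by
      refine h3.trans ?_
      apply Nat.cast_le.mpr
      apply card_le_card
      intro t ht
      rw [mem_filter] at ht ⊢
      exact ⟨ht.1, h2.2.2.trans ht.2⟩
    have h5 := meas_low n (Nat.nth Nat.Prime (n - 1) - 1) (1 / 32 * Real.log n) u v hu huv _ h4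
    refine le_trans (le_of_eq ?_) h5
    field_simp)
  refine ⟨1 / 32, δ / 2, by norm_num, by positivity, ?_⟩
  filter_upwards [hden] with α hα hα0
  refine (hα hα0).mono fun N hN => hN.trans ?_
  apply Nat.cast_le.mpr
  unfold cnt
  apply card_le_card
  intro n hn
  rw [mem_filter] at hn ⊢
  refine ⟨hn.1, ?_⟩
  have h1 : 1 / 32 * Real.log n ≤ (((range (Nat.nth Nat.Prime (n - 1) - 1 + 1)).filter
    (fun h => (⌈α * 2 ^ n⌉₊ + h).Prime)).card : ℝ) := hn.2
  refine h1.trans ?_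
  apply Nat.cast_le.mpr
  apply npr_ge _ (by positivity)
  have h2 : 1 ≤ Nat.nth Nat.Prime (n - 1) := (Nat.prime_nth_prime _).one_lt.le
  rw [Nat.cast_sub h2]
  push_cast
  linarith

end Pool.Agent.K7.H60.MT
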